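import Pool.Agent.Y965.GQ.Law2
import Pool.Agent.H499R2.NDWord

/-!
# The law of the maximum excursion along the sequences `⌊n ^ c⌋`
-/

set_option autoImplicit false

namespace Pool.Agent.Results.MP_0deaf3_nt.PiatetskiShapiroExcursions

open Filter Topology

/-- the accelerated `3x+1` map -/
def T (n : ℕ) : ℕ := if n % 2 = 0 then n / 2 else (3 * n + 1) / 2

/-- `t(n) < ∞` -/
def FiniteExcursion (n : ℕ) : Prop := ∃ M : ℕ, ∀ k, T^[k] n ≤ M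

/-- `t(n) ≤ C`, where `t(n)` is the supremum of the `T^(k)(n)`, `k ≥ 1` -/
def ExcursionLE (n : ℕ) (C : ℝ) : Prop := ∀ k, 1 ≤ k → (T^[k] n : ℝ) ≤ C

/-- the same with `k = 0` allowed -/
def ExcursionLE0 (n : ℕ) (C : ℝ) : Prop := ∀ k, (T^[k] n : ℝ) ≤ C

lemma excursionLE_iff {lam : ℝ} (h : 1 ≤ lam) (x : ℕ) :
    ExcursionLE x (lam * x) ↔ ExcursionLE0 x (lam * x) := by
  constructor
  · intro hx k
    rcases Nat.eq_zero_or_pos k with rfl | hk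
    · have : (0 : ℝ) ≤ x := Nat.cast_nonneg x
      simp only [Function.iterate_zero, id]
      nlinarith
    · exact hx k hk
  · exact fun hx k _ => hx k

/-- the positive integers with the property `P` have the natural density `δ` -/
def HasDensity (P : ℕ → Prop) (δ : ℝ) : Prop :=
  Tendsto (fun N : ℕ => ({n : ℕ | 1 ≤ n ∧ n ≤ N ∧ P n}.ncard : ℝ) / N) atTop (𝓝 δ)

/-- words `w` of length `K` over `{0,1}` with `3^(w_0+...+w_(k-1)) / 2^k < lam` for `1 ≤ k ≤ K` -/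
def safeWords (K : ℕ) (lam : ℝ) : Set (Fin K → Fin 2) :=
  {w | ∀ k, 1 ≤ k → k ≤ K →
    (3 : ℝ) ^ (∑ i ∈ Finset.univ.filter (fun i : Fin K => (i : ℕ) < k), (w i : ℕ)) < lam * 2 ^ k}

lemma density_of {c : ℝ} {P : ℕ → Prop} {δ : ℝ}
    (h : Tendsto (fun N : ℕ => Pool.Agent.Y965.GQ.pc c P N / N) atTop (𝓝 δ)) :
    HasDensity (fun n => P ⌊(n : ℝ) ^ c⌋₊) δ := by
  refine h.congr fun N => ?_
  congr 1
  exact (Pool.Agent.Y965.GQ.cnt_ic (fun n => P ⌊(n : ℝ) ^ c⌋₊) N).symm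

theorem result0 : ∃ (c₀ β : ℝ) (q : ℝ → ℝ), 1 < c₀ ∧ 0 < β ∧ β ≤ 1 ∧
    (β = 1 ↔ ∀ n : ℕ, 1 ≤ n → FiniteExcursion n) ∧ HasDensity FiniteExcursion β ∧
    (∀ lam : ℝ, 1 ≤ lam → 1 - 1 / lam ≤ q lam ∧ q lam ≤ 1 ∧
      Tendsto (fun K : ℕ => ((safeWords K lam).ncard : ℝ) / 2 ^ K) atTop (𝓝 (q lam)) ∧
      HasDensity (fun n => ExcursionLE0 n (lam * n)) (β * q lam)) ∧
    ∀ c : ℝ, 1 < c → c < c₀ →
      HasDensity (fun n => FiniteExcursion ⌊(n : ℝ) ^ c⌋₊) β ∧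
      ∀ lam : ℝ, 1 ≤ lam →
        HasDensity (fun n => ExcursionLE0 ⌊(n : ℝ) ^ c⌋₊ (lam * ⌊(n : ℝ) ^ c⌋₊)) (β * q lam) := by
  obtain ⟨β, h0, h1, h2, h3⟩ := Pool.Agent.H499R2.ND.Bdd_density
  obtain ⟨a, ha0, ha, htr⟩ := Pool.Agent.Y965.GQ.transfer3
  have h : ∀ lam : ℝ, ∃ q : ℝ, 1 ≤ lam → 1 - 1 / lam ≤ q ∧ q ≤ 1 ∧
      Tendsto (fun K : ℕ => Pool.Agent.H499R2.ND.rK K lam) atTop (𝓝 q) ∧
      HasDensity (fun n => ExcursionLE0 n (lam * n)) (β * q) := by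
    intro lam
    by_cases hl : 1 ≤ lam
    · obtain ⟨q, g1, g2, g3, g4⟩ := Pool.Agent.H499R2.ND.exc_law h3 hl
      exact ⟨q, fun _ => ⟨g2, g3, g1, g4⟩⟩
    · exact ⟨0, fun h' => absurd h' hl⟩
  choose q hq using h
  refine ⟨1 / (1 - a), β, q, ?_, h0, h1, h2, h3, fun lam hl => ?_, fun c hc hca => ?_⟩
  · rw [lt_div_iff₀ (by linarith)]
    linarith
  · obtain ⟨g1, g2, g3, g4⟩ := hq lam hl
    exact ⟨g1, g2, g3.congr fun K => Pool.Agent.H499R2.ND.rK_words K lam, g4⟩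
  · obtain ⟨K, hK, hT⟩ := htr c hc hca
    have hc2 : c ≤ 2 := by
      have : 1 / (1 - a) ≤ 2 := by
        rw [div_le_iff₀ (by linarith)]
        linarith
      linarith
    exact ⟨density_of (Pool.Agent.Y965.GQ.bdd_pc hc ha0 hT h3), fun lam hl =>
      density_of (P := fun x => ExcursionLE0 x (lam * x))
        (Pool.Agent.Y965.GQ.exc_pc hc hc2 ha0 hT h3 hl (hq lam hl).2.2.1)⟩

/-- **The law of the maximum excursion along `⌊n ^ c⌋`.** There are `c₀ > 1`, `0 < β ≤ 1` and a function `q` with: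
`β = 1` if and only if all maximum excursions `t(n)` are finite; for `lam ≥ 1` the proportion of the safe words of
length `K` tends to `q lam ≥ 1 - 1 / lam` as `K → ∞`; the `n` with `t(n) < ∞` have the natural density `β` and those
with `t(n) ≤ lam n` the density `β * q lam`; and for EVERY real `c` with `1 < c < c₀` the `n` with
`t(⌊n ^ c⌋) < ∞` have the natural density `β` and for every `lam ≥ 1` those with `t(⌊n ^ c⌋) ≤ lam ⌊n ^ c⌋` have the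
natural density `β * q lam`. -/
theorem result : ∃ (c₀ β : ℝ) (q : ℝ → ℝ), 1 < c₀ ∧ 0 < β ∧ β ≤ 1 ∧
    (β = 1 ↔ ∀ n : ℕ, 1 ≤ n → FiniteExcursion n) ∧ HasDensity FiniteExcursion β ∧
    (∀ lam : ℝ, 1 ≤ lam → 1 - 1 / lam ≤ q lam ∧ q lam ≤ 1 ∧
      Tendsto (fun K : ℕ => ((safeWords K lam).ncard : ℝ) / 2 ^ K) atTop (𝓝 (q lam)) ∧
      HasDensity (fun n => ExcursionLE n (lam * n)) (β * q lam)) ∧
    ∀ c : ℝ, 1 < c → c < c₀ →
      HasDensity (fun n => FiniteExcursion ⌊(n : ℝ) ^ c⌋₊) β ∧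
      ∀ lam : ℝ, 1 ≤ lam →
        HasDensity (fun n => ExcursionLE ⌊(n : ℝ) ^ c⌋₊ (lam * ⌊(n : ℝ) ^ c⌋₊)) (β * q lam) := by
  obtain ⟨c₀, β, q, h1, h2, h3, h4, h5, h6, h7⟩ := result0
  refine ⟨c₀, β, q, h1, h2, h3, h4, h5, fun lam hl => ?_, fun c hc1 hc2 => ⟨(h7 c hc1 hc2).1, fun lam hl => ?_⟩⟩
  · obtain ⟨a1, a2, a3, a4⟩ := h6 lam hl
    refine ⟨a1, a2, a3, ?_⟩
    simpa only [excursionLE_iff hl] using a4
  · have := (h7 c hc1 hc2).2 lam hl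
    simpa only [excursionLE_iff hl] using this

end Pool.Agent.Results.MP_0deaf3_nt.PiatetskiShapiroExcursions
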